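import Pool.Agent.W788.NV.Stm

/-!
# Project NV: part FIN1
-/

set_option autoImplicit false

open Finset Filter Topology

namespace Pool.Agent.W919.NV

open Pool.Agent.W788.NV

lemma one_lt_log {n : ℕ} (hn : 3 ≤ n) : 1 < Real.log n := by
  have h3 : (3:ℝ) ≤ n := by exact_mod_cast hn
  have h1 : Real.exp 1 < 3 := by
    have := Real.exp_one_lt_d9
    linarith
  rw [Real.lt_log_iff_exp_lt (by linarith)]
  linarith

lemma mem_tm (h2 : S_UPP) {q : ℕ} {θ : ℝ} {Δ : ℕ} (hq : 1 ≤ q) (hθ : 0 < θ) (hθ1 : θ ≤ 1)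
    (hΔ : 1 ≤ Δ) {V : Type} [Fintype V] [DecidableEq V] (G : SimpleGraph V) (x0 : V → Fin q)
    (μ : (V → Fin q) → ℝ) (hd : ∀ v, 1 ≤ dg G v) (hD : ∀ v, dg G v ≤ Δ)
    (hn : 3 ≤ Fintype.card V) (hμ : IsStat G q θ μ) (δ : ℝ) (hδ : 0 < δ) (hδ1 : δ < 1) :
    0 ≤ Real.log (Fintype.card V * Δ / δ) / θ ∧
    Real.log (Fintype.card V * Δ / δ) / θ ∈
      {t : ℝ | 0 ≤ t ∧ tv (law G q θ x0 t) μ ≤ δ} := by
  have hn' : (3:ℝ) ≤ Fintype.card V := by exact_mod_cast hn
  have hΔ' : (1:ℝ) ≤ Δ := by exact_mod_cast hΔ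
  have hnD : (1:ℝ) ≤ Fintype.card V * Δ := by nlinarith
  have hge : 1 ≤ Fintype.card V * Δ / δ := by
    rw [le_div_iff₀ hδ]
    linarith
  have h0 : 0 ≤ Real.log (Fintype.card V * Δ / δ) / θ :=
    div_nonneg (Real.log_nonneg hge) hθ.le
  refine ⟨h0, h0, ?_⟩
  have h3 := h2 V G q θ Δ hq hθ hθ1 hd hD x0 μ _ hμ h0
  refine h3.trans ?_
  have e1 : -θ * (Real.log (Fintype.card V * Δ / δ) / θ) =
      -Real.log (Fintype.card V * Δ / δ) := by
    field_simp
  rw [e1, Real.exp_neg, Real.exp_log (by linarith)]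
  have hne : (Fintype.card V * Δ : ℝ) ≠ 0 := by linarith
  rw [inv_div]
  field_simp
  exact le_refl _

lemma bdd (q : ℕ) (θ : ℝ) {V : Type} [Fintype V] [DecidableEq V] (G : SimpleGraph V)
    (x0 : V → Fin q) (μ : (V → Fin q) → ℝ) (δ : ℝ) :
    BddBelow {t : ℝ | 0 ≤ t ∧ tv (law G q θ x0 t) μ ≤ δ} :=
  ⟨0, fun _ ht => ht.1⟩

lemma small (θ D ε : ℝ) (hθ : 0 < θ) (hε : 0 < ε) :
    ∃ n0 : ℕ, ∀ n : ℕ, n0 ≤ n →
      2 * ((Real.log n + Real.log (D / (1 - ε))) / θ + 1 + 4 / θ * Real.log n) *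
        (Real.exp (θ / 2) / n) + 6 * D / (n : ℝ) ^ 3 ≤ ε ^ 3 / 2 := by
  have hl : Tendsto (fun n : ℕ => Real.log n / n) atTop (𝓝 0) := by
    have h := (Real.tendsto_pow_log_div_mul_add_atTop 1 0 1 one_ne_zero).comp
      tendsto_natCast_atTop_atTop
    refine h.congr (fun n => ?_)
    simp
  have hi : Tendsto (fun n : ℕ => (1:ℝ) / n) atTop (𝓝 0) := tendsto_const_div_atTop_nhds_zero_nat 1
  have hlim : Tendsto (fun n : ℕ =>
      (2 * (1 / θ + 4 / θ) * Real.exp (θ / 2)) * (Real.log n / n) +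
      (2 * (Real.log (D / (1 - ε)) / θ + 1) * Real.exp (θ / 2)) * (1 / n) +
      6 * D * ((1:ℝ) / n) ^ 3) atTop (𝓝 0) := by
    have := ((hl.const_mul (2 * (1 / θ + 4 / θ) * Real.exp (θ / 2))).add
      (hi.const_mul (2 * (Real.log (D / (1 - ε)) / θ + 1) * Real.exp (θ / 2)))).add
      ((hi.pow 3).const_mul (6 * D))
    simpa using this
  have hpos : 0 < ε ^ 3 / 2 := by positivity
  have hev := hlim.eventually (ge_mem_nhds hpos)
  rw [eventually_atTop] at hev
  obtain ⟨n0, h0⟩ := hev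
  refine ⟨n0, fun n hn => ?_⟩
  have h1 := h0 n hn
  refine le_trans (le_of_eq ?_) h1
  rw [div_pow, one_pow]
  ring

theorem fin1_ (h1 : S_WIN) (h2 : S_UPP) (h3 : S_LAW) : S_FIN1 := by
  intro q θ Δ ε hq hθ hθ1 hε hε1
  rcases Nat.eq_zero_or_pos Δ with hΔ0 | hΔ
  · refine ⟨0, ?_⟩
    intro V _ _ G x0 μ hd hD hn hμ
    exfalso
    have : 0 < Fintype.card V := by omega
    rw [Fintype.card_pos_iff] at this
    obtain ⟨v⟩ := this
    have a1 := hd v
    have a2 := hD v
    omega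
  have hD1 : (1:ℝ) ≤ Δ := by exact_mod_cast hΔ
  have hq1 : 1 ≤ q := by omega
  obtain ⟨n0, hn0⟩ := small θ Δ ε hθ hε
  -- constants
  set K : ℝ := 1 + 32 * (Δ:ℝ) ^ 2 / (θ * ε ^ 3) with hK
  have hK1 : 1 ≤ K := by
    rw [hK]
    have : 0 ≤ 32 * (Δ:ℝ) ^ 2 / (θ * ε ^ 3) := by positivity
    linarith
  set C1 : ℝ := Real.log K with hC1
  have hC1n : 0 ≤ C1 := Real.log_nonneg hK1
  set C2 : ℝ := |Real.log ((n0:ℝ) * Δ / ε)| / θ with hC2
  have hC2n : 0 ≤ C2 := div_nonneg (abs_nonneg _) hθ.le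
  refine ⟨C2 + 1 + C1 / θ, ?_⟩
  intro V _ _ G x0 μ hd hD hn hμ
  have hC1θ : 0 ≤ C1 / θ := div_nonneg hC1n hθ.le
  have hlog1 : 1 < Real.log (Fintype.card V) := one_lt_log hn
  have hll : 0 ≤ Real.log (Real.log (Fintype.card V)) := Real.log_nonneg hlog1.le
  have hllθ : 0 ≤ Real.log (Real.log (Fintype.card V)) / θ := div_nonneg hll hθ.le
  have hn3 : (3:ℝ) ≤ Fintype.card V := by exact_mod_cast hn
  have hnpos : (0:ℝ) < Fintype.card V := by linarith
  obtain ⟨ha0, ha1⟩ := mem_tm h2 hq1 hθ hθ1 hΔ G x0 μ hd hD hn hμ ε hε hε1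
  obtain ⟨hb0, hb1⟩ := mem_tm h2 hq1 hθ hθ1 hΔ G x0 μ hd hD hn hμ (1 - ε) (by linarith)
    (by linarith)
  have hle1 : tmix G q θ x0 μ ε ≤ Real.log (Fintype.card V * Δ / ε) / θ :=
    csInf_le (bdd q θ G x0 μ ε) ha1
  have hle2 : tmix G q θ x0 μ (1 - ε) ≤ Real.log (Fintype.card V * Δ / (1 - ε)) / θ :=
    csInf_le (bdd q θ G x0 μ (1 - ε)) hb1
  have hge2 : 0 ≤ tmix G q θ x0 μ (1 - ε) := Real.sInf_nonneg (fun t ht => ht.1)
  by_cases hnn : n0 ≤ Fintype.card V
  · -- main case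
    obtain ⟨s, hs, hslt⟩ := exists_lt_of_csInf_lt ⟨_, hb1⟩
      (show tmix G q θ x0 μ (1 - ε) < tmix G q θ x0 μ (1 - ε) + 1 by linarith)
    obtain ⟨hs0, hstv⟩ := hs
    set r : ℝ := (Real.log (Real.log (Fintype.card V)) + C1) / θ with hr
    have hr0 : 0 ≤ r := div_nonneg (by linarith) hθ.le
    set u : ℝ := 4 / θ * Real.log (Fintype.card V) with hu
    have hu0 : 0 ≤ u := mul_nonneg (by positivity) (by linarith)
    set M : ℝ := 4 * Δ / θ * Real.log (Fintype.card V) with hM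
    have hM0 : 0 ≤ M := mul_nonneg (by positivity) (by linarith)
    have hw := h1 V G q θ Δ hq1 hθ hθ1 hd hD x0 μ s r u M hμ hs0 hr0 hu0 hM0
    by_cases htv : tv (law G q θ x0 (s + r)) μ ≤ ε
    · have : tmix G q θ x0 μ ε ≤ s + r :=
        csInf_le (bdd q θ G x0 μ ε) ⟨by linarith, htv⟩
      have hr' : r = Real.log (Real.log (Fintype.card V)) / θ + C1 / θ := by
        rw [hr]
        ring
      linarith
    · exfalso
      push Not at htv
      have e1 : Real.exp (-θ * r) = K⁻¹ * (Real.log (Fintype.card V))⁻¹ := by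
        have : -θ * r = -(Real.log (Real.log (Fintype.card V))) + -C1 := by
          rw [hr]
          field_simp
          ring
        rw [this, Real.exp_add, Real.exp_neg, Real.exp_neg, Real.exp_log (by linarith), hC1,
          Real.exp_log (by linarith)]
        ring
      have e2 : Real.exp (θ / 2 - θ * M / (2 * Δ)) =
          Real.exp (θ / 2) * ((Fintype.card V : ℝ) ^ 2)⁻¹ := by
        have : θ / 2 - θ * M / (2 * Δ) = θ / 2 + -(Real.log ((Fintype.card V : ℝ) ^ 2)) := by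
          rw [hM, Real.log_pow]
          have : (Δ:ℝ) ≠ 0 := by linarith
          field_simp
          push_cast
          ring
        rw [this, Real.exp_add, Real.exp_neg, Real.exp_log (by positivity)]
      have e3 : Real.exp (-θ * u) = ((Fintype.card V : ℝ) ^ 4)⁻¹ := by
        have : -θ * u = -(Real.log ((Fintype.card V : ℝ) ^ 4)) := by
          rw [hu, Real.log_pow]
          field_simp
          push_cast
          ring
        rw [this, Real.exp_neg, Real.exp_log (by positivity)]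
      rw [e1, e2, e3] at hw
      have hlpos : 0 < Real.log (Fintype.card V) := by linarith
      -- first term
      have t1 : 2 * (2 * ((Δ:ℝ) * (K⁻¹ * (Real.log (Fintype.card V))⁻¹) * M)) ≤ ε ^ 3 / 2 := by
        have e : 2 * (2 * ((Δ:ℝ) * (K⁻¹ * (Real.log (Fintype.card V))⁻¹) * M)) =
            16 * (Δ:ℝ) ^ 2 / θ / K := by
          rw [hM]
          field_simp
          ring
        rw [e, div_le_iff₀ (by linarith)]
        have hK2 : 32 * (Δ:ℝ) ^ 2 / (θ * ε ^ 3) ≤ K := by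
          rw [hK]
          linarith
        have h5 : ε ^ 3 / 2 * (32 * (Δ:ℝ) ^ 2 / (θ * ε ^ 3)) ≤ ε ^ 3 / 2 * K :=
          mul_le_mul_of_nonneg_left hK2 (by positivity)
        refine le_trans (le_of_eq ?_) h5
        field_simp
        ring
      have hsb : s + u ≤ (Real.log (Fintype.card V) + Real.log (Δ / (1 - ε))) / θ + 1 +
          4 / θ * Real.log (Fintype.card V) := by
        have e : Real.log (Fintype.card V * Δ / (1 - ε)) =
            Real.log (Fintype.card V) + Real.log (Δ / (1 - ε)) := by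
          rw [mul_div_assoc, Real.log_mul (by linarith)
            (div_ne_zero (by linarith) (by linarith))]
        rw [e] at hle2
        rw [hu]
        linarith
      have t2 : 2 * ((s + u) * Fintype.card V *
          (Real.exp (θ / 2) * ((Fintype.card V : ℝ) ^ 2)⁻¹) +
          3 * (Fintype.card V * Δ * ((Fintype.card V : ℝ) ^ 4)⁻¹)) ≤ ε ^ 3 / 2 := by
        have h6 := hn0 (Fintype.card V) hnn
        refine le_trans ?_ h6
        have e : 2 * ((s + u) * Fintype.card V *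
          (Real.exp (θ / 2) * ((Fintype.card V : ℝ) ^ 2)⁻¹) +
          3 * (Fintype.card V * Δ * ((Fintype.card V : ℝ) ^ 4)⁻¹)) =
          2 * (s + u) * (Real.exp (θ / 2) / Fintype.card V) +
            6 * Δ / (Fintype.card V : ℝ) ^ 3 := by
          field_simp
          ring
        rw [e]
        have h7 : 0 ≤ Real.exp (θ / 2) / (Fintype.card V : ℝ) := by positivity
        have h8 : 2 * (s + u) * (Real.exp (θ / 2) / Fintype.card V) ≤
            2 * ((Real.log (Fintype.card V) + Real.log (Δ / (1 - ε))) / θ + 1 +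
          4 / θ * Real.log (Fintype.card V)) * (Real.exp (θ / 2) / Fintype.card V) :=
          mul_le_mul_of_nonneg_right (by linarith) h7
        linarith
      have h9 : ε ^ 2 < (tv (law G q θ x0 (s + r)) μ) ^ 2 := by
        nlinarith
      have h10 : ε ^ 3 < (tv (law G q θ x0 (s + r)) μ) ^ 2 *
          (1 - tv (law G q θ x0 s) μ) := by
        have h11 : ε ≤ 1 - tv (law G q θ x0 s) μ := by linarith
        calc ε ^ 3 = ε ^ 2 * ε := by ring
          _ < (tv (law G q θ x0 (s + r)) μ) ^ 2 * ε := mul_lt_mul_of_pos_right h9 hε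
          _ ≤ _ := mul_le_mul_of_nonneg_left h11 (sq_nonneg _)
      linarith
  · push Not at hnn
    have hnn' : (Fintype.card V : ℝ) ≤ n0 := by exact_mod_cast hnn.le
    have h4 : Real.log (Fintype.card V * Δ / ε) ≤ |Real.log ((n0:ℝ) * Δ / ε)| := by
      refine le_trans ?_ (le_abs_self _)
      apply Real.log_le_log
      · have : (0:ℝ) < Δ := by linarith
        positivity
      · exact div_le_div_of_nonneg_right (mul_le_mul_of_nonneg_right hnn' (by linarith)) hε.le
    have h5 : Real.log (Fintype.card V * Δ / ε) / θ ≤ C2 := div_le_div_of_nonneg_right h4 hθ.le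
    linarith

end Pool.Agent.W919.NV
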